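import Mathlib

namespace Pool.Agent.Results.MP_f639ae_co.ExpGrowth

open Filter

/-- The `k`-dimension of a poset `P`: the least `t` such that `P` order-embeds into the product
of `t` chains with `k` elements each (`Fin t → Fin k` with the componentwise order). -/
noncomputable def kDim (k : ℕ) (P : Type) [PartialOrder P] : ℕ :=
  sInf {t : ℕ | Nonempty (P ↪o (Fin t → Fin k))}

/-- `P` is `k`-irreducible if deleting any element lowers the `k`-dimension. -/
def KIrreducible (k : ℕ) (P : Type) [PartialOrder P] : Prop :=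
  ∀ x : P, kDim k {y : P // y ≠ x} < kDim k P

/-- A finite poset, presented on the underlying set `Fin n`. -/
structure FinPoset where
  /-- number of elements -/
  n : ℕ
  /-- the order -/
  ord : PartialOrder (Fin n)

/-- The underlying type of a finite poset. -/
def FinPoset.Carrier (P : FinPoset) : Type := Fin P.n

instance (P : FinPoset) : PartialOrder P.Carrier := P.ord

/-- Isomorphism of finite posets. -/
def isoSetoid : Setoid FinPoset where
  r P Q := Nonempty (P.Carrier ≃o Q.Carrier)
  iseqv :=
    { refl := fun _ => ⟨OrderIso.refl _⟩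
      symm := fun ⟨e⟩ => ⟨e.symm⟩
      trans := fun ⟨e⟩ ⟨f⟩ => ⟨e.trans f⟩ }

/-- The set of isomorphism classes of finite posets that are `k`-irreducible and have
`k`-dimension `t`. (It is finite for every `t ≥ 1`, see `irrClasses_finite` below.) -/
def irrClasses (k t : ℕ) : Set (Quotient isoSetoid) :=
  {c | ∃ P : FinPoset, Quotient.mk isoSetoid P = c ∧
    KIrreducible k P.Carrier ∧ kDim k P.Carrier = t}

/-- `numIrr k t` is `N_k(t)`. -/
noncomputable def numIrr (k t : ℕ) : ℕ := (irrClasses k t).ncard

/-! ### weak orders -/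

/-- The weak order attached to a rank function: `x < y` iff `ρ x < ρ y`. -/
abbrev weakOrder {α : Type} (ρ : α → ℕ) : PartialOrder α where
  le x y := x = y ∨ ρ x < ρ y
  le_refl x := Or.inl rfl
  le_trans x y z := by
    rintro (rfl | h1) (rfl | h2)
    · exact Or.inl rfl
    · exact Or.inr h2
    · exact Or.inr h1
    · exact Or.inr (h1.trans h2)
  le_antisymm x y := by
    rintro (h | h1) (h' | h2)
    · exact h
    · exact h
    · exact h'.symm
    · omega

/-- Embedding lemma. -/
lemma embed_of_coloring {α : Type} [Fintype α] [PartialOrder α] (k t : ℕ) (hk : 1 ≤ k) (ρ : α → ℕ)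
    (hle : ∀ x y : α, x ≤ y ↔ (x = y ∨ ρ x < ρ y)) (κ : α → ℕ) (hκ : ∀ x, κ x < t)
    (h1 : ∀ c, (Finset.univ.filter (fun y => κ y = c)).card ≤ k - 1)
    (h2 : ∀ x y, x ≠ y → ρ x = ρ y → κ x ≠ κ y) :
    Nonempty (α ↪o (Fin t → Fin k)) := by
  classical
  let S : α → ℕ → Finset α := fun x c => Finset.univ.filter (fun y => (y = x ∨ ρ y < ρ x) ∧ κ y = c)
  have hS : ∀ x c, (S x c).card < k := by
    intro x c
    have : (S x c).card ≤ (Finset.univ.filter (fun y => κ y = c)).card := by
      apply Finset.card_le_card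
      intro y hy
      simp only [S, Finset.mem_filter, Finset.mem_univ, true_and] at hy ⊢
      exact hy.2
    have := h1 c
    omega
  let f : α → (Fin t → Fin k) := fun x c => ⟨(S x c).card, hS x c⟩
  have key : ∀ x y, f x ≤ f y ↔ x ≤ y := by
    intro x y
    rw [hle]
    constructor
    · intro h
      by_contra hcon
      push Not at hcon
      obtain ⟨hne, hrk⟩ := hcon
      have hc := h ⟨κ x, hκ x⟩
      have hc' : (S x (κ x)).card ≤ (S y (κ x)).card := by
        simpa [f, Fin.le_def] using hc
      have hsub : insert x (S y (κ x)) ⊆ S x (κ x) := by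
        intro z hz
        rw [Finset.mem_insert] at hz
        rcases hz with rfl | hz
        · simp [S]
        · simp only [S, Finset.mem_filter, Finset.mem_univ, true_and] at hz ⊢
          refine ⟨?_, hz.2⟩
          rcases hz.1 with rfl | h3
          · rcases hrk.lt_or_eq with h4 | h4
            · exact Or.inr h4
            · exact absurd hz.2 (h2 z x (Ne.symm hne) h4)
          · exact Or.inr (by omega)
      have hnot : x ∉ S y (κ x) := by
        simp only [S, Finset.mem_filter, Finset.mem_univ, true_and, not_and]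
        intro h3
        rcases h3 with h3 | h3
        · exact absurd h3 hne
        · omega
      have := Finset.card_le_card hsub
      rw [Finset.card_insert_of_notMem hnot] at this
      omega
    · intro h c
      show (S x c).card ≤ (S y c).card
      apply Finset.card_le_card
      intro z hz
      simp only [S, Finset.mem_filter, Finset.mem_univ, true_and] at hz ⊢
      refine ⟨?_, hz.2⟩
      rcases h with rfl | h
      · exact hz.1
      · rcases hz.1 with rfl | h3
        · exact Or.inr h
        · exact Or.inr (h3.trans h)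
  exact ⟨OrderEmbedding.ofMapLEIff f key⟩

/-- The key per-level estimate. -/
lemma level_card {α : Type} [Fintype α] [DecidableEq α] {t k : ℕ} (f : α → (Fin t → Fin k))
    (L : Finset α) (hanti : ∀ x ∈ L, ∀ y ∈ L, x ≠ y → ¬ f x ≤ f y) (h2 : 2 ≤ L.card)
    (h3 : L.card ≤ 3) (B : Finset (Fin t × ℕ))
    (hB : ∀ c j, (∃ x ∈ L, ∃ y ∈ L, (f x c : ℕ) ≤ j ∧ j < f y c) → (c, j) ∈ B) :
    L.card ≤ B.card := by
  have hpair : ∀ x ∈ L, ∀ y ∈ L, x ≠ y → ∃ c, (f y c : ℕ) < f x c ∧ (c, (f y c : ℕ)) ∈ B := by
    intro x hx y hy hne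
    have := hanti x hx y hy hne
    rw [Pi.le_def] at this
    push Not at this
    obtain ⟨c, hc⟩ := this
    exact ⟨c, hc, hB c _ ⟨y, hy, x, hx, le_rfl, hc⟩⟩
  obtain ⟨x, hx, y, hy, hxy⟩ := Finset.one_lt_card.mp (show 1 < L.card by omega)
  obtain ⟨c1, hc1, hm1⟩ := hpair x hx y hy hxy
  obtain ⟨c2, hc2, hm2⟩ := hpair y hy x hx hxy.symm
  have hcne : c1 ≠ c2 := by
    rintro rfl
    omega
  have h2B : 2 ≤ B.card := by
    have : ({(c1, (f y c1 : ℕ)), (c2, (f x c2 : ℕ))} : Finset (Fin t × ℕ)) ⊆ B := by
      intro z hz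
      simp only [Finset.mem_insert, Finset.mem_singleton] at hz
      rcases hz with rfl | rfl
      · exact hm1
      · exact hm2
    have h := Finset.card_le_card this
    rw [Finset.card_pair] at h
    · exact h
    · intro h
      exact hcne (Prod.mk.inj h).1
  by_contra hcon
  push Not at hcon
  have hB2 : B.card = 2 := by omega
  have hL3 : L.card = 3 := by omega
  have hBeq : ∀ p ∈ B, p = (c1, (f y c1 : ℕ)) ∨ p = (c2, (f x c2 : ℕ)) := by
    have hsub : ({(c1, (f y c1 : ℕ)), (c2, (f x c2 : ℕ))} : Finset (Fin t × ℕ)) ⊆ B := by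
      intro z hz
      simp only [Finset.mem_insert, Finset.mem_singleton] at hz
      rcases hz with rfl | rfl
      · exact hm1
      · exact hm2
    have heq : ({(c1, (f y c1 : ℕ)), (c2, (f x c2 : ℕ))} : Finset (Fin t × ℕ)) = B := by
      apply Finset.eq_of_subset_of_card_le hsub
      rw [Finset.card_pair, hB2]
      intro h
      exact hcne (Prod.mk.inj h).1
    intro p hp
    rw [← heq] at hp
    simpa using hp
  obtain ⟨z, hz, hzx, hzy⟩ : ∃ z ∈ L, z ≠ x ∧ z ≠ y := by
    by_contra hno
    push Not at hno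
    have : L ⊆ {x, y} := by
      intro w hw
      simp only [Finset.mem_insert, Finset.mem_singleton]
      by_cases h : w = x
      · exact Or.inl h
      · exact Or.inr (hno w hw h)
    have := Finset.card_le_card this
    have h' := Finset.card_le_two (a := x) (b := y)
    omega
  -- values at c1
  have hv1 : (f x c1 : ℕ) = f y c1 + 1 := by
    by_contra hne
    have : (c1, (f y c1 : ℕ) + 1) ∈ B := hB _ _ ⟨y, hy, x, hx, by omega, by omega⟩
    rcases hBeq _ this with h | h
    · have := (Prod.mk.inj h).2
      omega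
    · exact hcne (Prod.mk.inj h).1
  have hz1 : (f z c1 : ℕ) = f y c1 ∨ (f z c1 : ℕ) = f x c1 := by
    by_contra hno
    push Not at hno
    rcases lt_or_gt_of_ne hno.1 with h | h
    · have : (c1, (f z c1 : ℕ)) ∈ B := hB _ _ ⟨z, hz, y, hy, le_rfl, h⟩
      rcases hBeq _ this with h' | h'
      · have := (Prod.mk.inj h').2
        omega
      · exact hcne (Prod.mk.inj h').1
    · have h5 : (f x c1 : ℕ) < f z c1 := by omega
      have : (c1, (f x c1 : ℕ)) ∈ B := hB _ _ ⟨x, hx, z, hz, le_rfl, h5⟩
      rcases hBeq _ this with h' | h'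
      · have := (Prod.mk.inj h').2
        omega
      · exact hcne (Prod.mk.inj h').1
  rcases hz1 with h | h
  · -- compare y and z
    obtain ⟨c, hc, hm⟩ := hpair z hz y hy hzy
    -- f y c < f z c
    rcases hBeq _ hm with h' | h'
    · have hcc := (Prod.mk.inj h').1
      subst hcc
      omega
    · have hcc := (Prod.mk.inj h').1
      have hvv := (Prod.mk.inj h').2
      subst hcc
      omega
  · obtain ⟨c, hc, hm⟩ := hpair x hx z hz hzx.symm
    rcases hBeq _ hm with h' | h'
    · have hcc := (Prod.mk.inj h').1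
      subst hcc
      omega
    · have hcc := (Prod.mk.inj h').1
      have hvv := (Prod.mk.inj h').2
      subst hcc
      omega

/-- Lower bound: a weak order all of whose levels have two or three elements needs
`|α| ≤ t (k-1)`. -/
lemma card_le_of_embed {α : Type} [Fintype α] [PartialOrder α] (k t : ℕ) (ρ : α → ℕ)
    (hle : ∀ x y : α, x ≤ y ↔ (x = y ∨ ρ x < ρ y))
    (hlev : ∀ x, 2 ≤ (Finset.univ.filter (fun y => ρ y = ρ x)).card ∧
      (Finset.univ.filter (fun y => ρ y = ρ x)).card ≤ 3)
    (f : α ↪o (Fin t → Fin k)) : Fintype.card α ≤ t * (k - 1) := by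
  classical
  let lev : ℕ → Finset α := fun l => Finset.univ.filter (fun y => ρ y = l)
  let box : Finset (Fin t × ℕ) := Finset.univ ×ˢ Finset.range (k - 1)
  let B : ℕ → Finset (Fin t × ℕ) := fun l =>
    box.filter (fun p => ∃ x ∈ lev l, ∃ y ∈ lev l, (f x p.1 : ℕ) ≤ p.2 ∧ p.2 < f y p.1)
  have hBmem : ∀ l c j, (∃ x ∈ lev l, ∃ y ∈ lev l, (f x c : ℕ) ≤ j ∧ j < f y c) →
      (c, j) ∈ B l := by
    intro l c j h
    simp only [B, Finset.mem_filter]
    refine ⟨?_, h⟩
    simp only [box, Finset.mem_product, Finset.mem_univ, Finset.mem_range, true_and]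
    obtain ⟨x, _, y, _, h1, h2⟩ := h
    have := (f y c).isLt
    omega
  have hdisj : Set.PairwiseDisjoint (↑(Finset.univ.image ρ)) B := by
    intro l _ l' _ hne
    have main : ∀ l l', l < l' → Disjoint (B l) (B l') := by
      intro l l' hlt
      rw [Finset.disjoint_left]
      rintro ⟨c, j⟩ h1 h2
      simp only [B, Finset.mem_filter] at h1 h2
      obtain ⟨_, x, hx, y, hy, hxj, hjy⟩ := h1
      obtain ⟨_, x', hx', y', hy', hxj', hjy'⟩ := h2
      simp only [lev, Finset.mem_filter, Finset.mem_univ, true_and] at hx hy hx' hy'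
      have : f y ≤ f x' := by
        rw [f.le_iff_le, hle]
        exact Or.inr (by omega)
      have h3 : (f y c : ℕ) ≤ f x' c := this c
      omega
    rcases lt_or_gt_of_ne hne with h | h
    · exact main l l' h
    · exact (main l' l h).symm
  have hcard : ∀ l ∈ Finset.univ.image ρ, (lev l).card ≤ (B l).card := by
    intro l hl
    obtain ⟨x, _, rfl⟩ := Finset.mem_image.mp hl
    refine level_card (fun a => f a) (lev (ρ x)) ?_ (hlev x).1 (hlev x).2 (B (ρ x)) ?_
    · intro a ha b hb hab hfab
      simp only [lev, Finset.mem_filter, Finset.mem_univ, true_and] at ha hb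
      have : f a ≤ f b := hfab
      rw [f.le_iff_le, hle] at this
      rcases this with h | h
      · exact hab h
      · omega
    · intro c j h
      exact hBmem _ _ _ h
  have hsum1 : Fintype.card α = ∑ l ∈ Finset.univ.image ρ, (lev l).card := by
    rw [← Finset.card_univ]
    exact Finset.card_eq_sum_card_image ρ Finset.univ
  have hsum2 : ∑ l ∈ Finset.univ.image ρ, (B l).card ≤ box.card := by
    rw [← Finset.card_biUnion hdisj]
    apply Finset.card_le_card
    intro p hp
    rw [Finset.mem_biUnion] at hp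
    obtain ⟨l, _, hl⟩ := hp
    exact (Finset.mem_filter.mp hl).1
  have hbox : box.card = t * (k - 1) := by
    simp [box]
  calc Fintype.card α = ∑ l ∈ Finset.univ.image ρ, (lev l).card := hsum1
    _ ≤ ∑ l ∈ Finset.univ.image ρ, (B l).card := Finset.sum_le_sum hcard
    _ ≤ box.card := hsum2
    _ = t * (k - 1) := hbox


/-- Embedding of weak orders with small levels. -/
lemma embed_weak {α : Type} [Fintype α] [PartialOrder α] (k T : ℕ) (hk : 2 ≤ k) (hT : 3 ≤ T)
    (ρ : α → ℕ) (hle : ∀ x y : α, x ≤ y ↔ (x = y ∨ ρ x < ρ y)) (e : α → ℕ)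
    (he : Function.Injective e) (hlt : ∀ x, e x < T * (k - 1))
    (hlev : ∀ x y, ρ x = ρ y → e x ≤ e y + 2) :
    Nonempty (α ↪o (Fin T → Fin k)) := by
  classical
  refine embed_of_coloring k T (by omega) ρ hle (fun y => e y % T)
    (fun x => Nat.mod_lt _ (by omega)) ?_ ?_
  · intro c
    have h := Finset.card_le_card_of_injOn (s := Finset.univ.filter (fun y : α => e y % T = c))
      (t := Finset.range (k - 1)) (fun y => e y / T) ?_ ?_
    · simpa using h
    · intro y _
      simp only [Finset.coe_range, Set.mem_Iio]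
      exact Nat.div_lt_of_lt_mul (hlt y)
    · intro x hx y hy hxy
      simp only [Finset.coe_filter, Finset.mem_univ, true_and, Set.mem_ofPred_eq] at hx hy hxy
      apply he
      rw [← Nat.div_add_mod (e x) T, ← Nat.div_add_mod (e y) T, hxy, hx, hy]
  · intro x y hne hρ hmod
    have h1 := hlev x y hρ
    have h2 := hlev y x hρ.symm
    have h3 : e x ≠ e y := fun h => hne (he h)
    have h4 := Nat.div_add_mod (e x) T
    have h5 := Nat.div_add_mod (e y) T
    rcases lt_trichotomy (e x / T) (e y / T) with h | h | h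
    · have : T * (e x / T) + T ≤ T * (e y / T) := by
        have := Nat.mul_le_mul_left T h
        rw [Nat.mul_succ] at this
        exact this
      omega
    · rw [h] at h4
      omega
    · have : T * (e y / T) + T ≤ T * (e x / T) := by
        have := Nat.mul_le_mul_left T h
        rw [Nat.mul_succ] at this
        exact this
      omega

/-! ### the family -/

/-- start of the block containing `x`. -/
def st (q r : ℕ) (b : ℕ → Bool) (x : ℕ) : ℕ :=
  if x < 6 * q then (if b (x / 6) then 2 * (x / 2) else 3 * (x / 3))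
  else 6 * q + 2 * min ((x - 6 * q) / 2) (r / 2 - 1)

lemma st_le (q r : ℕ) (b : ℕ → Bool) (x : ℕ) : st q r b x ≤ x := by
  unfold st
  split_ifs <;> omega

lemma le_st (q r : ℕ) (hr : 2 ≤ r) (b : ℕ → Bool) (x : ℕ) (hx : x < 6 * q + r) :
    x ≤ st q r b x + 2 := by
  unfold st
  split_ifs <;> omega

lemma st_idem (q r : ℕ) (b : ℕ → Bool) (x : ℕ) : st q r b (st q r b x) = st q r b x := by
  by_cases h : x < 6 * q
  · by_cases hb : b (x / 6)
    · have h1 : st q r b x = 2 * (x / 2) := by simp [st, h, hb]
      rw [h1]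
      have h2 : 2 * (x / 2) < 6 * q := by omega
      have h3 : 2 * (x / 2) / 6 = x / 6 := by omega
      simp only [st, h2, h3, hb, if_true]
      omega
    · have h1 : st q r b x = 3 * (x / 3) := by simp [st, h, hb]
      rw [h1]
      have h2 : 3 * (x / 3) < 6 * q := by omega
      have h3 : 3 * (x / 3) / 6 = x / 6 := by omega
      simp only [st, h2, h3, hb, if_true]
      simp
  · have h1 : st q r b x = 6 * q + 2 * min ((x - 6 * q) / 2) (r / 2 - 1) := by simp [st, h]
    rw [h1]
    have h2 : ¬ (6 * q + 2 * min ((x - 6 * q) / 2) (r / 2 - 1) < 6 * q) := by omega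
    simp only [st, h2, if_false]
    omega

lemma st_succ (q r : ℕ) (hr : 2 ≤ r) (b : ℕ → Bool) (x : ℕ) :
    st q r b (st q r b x + 1) = st q r b x := by
  by_cases h : x < 6 * q
  · by_cases hb : b (x / 6)
    · have h1 : st q r b x = 2 * (x / 2) := by simp [st, h, hb]
      rw [h1]
      have h2 : 2 * (x / 2) + 1 < 6 * q := by omega
      have h3 : (2 * (x / 2) + 1) / 6 = x / 6 := by omega
      simp only [st, h2, h3, hb, if_true]
      omega
    · have h1 : st q r b x = 3 * (x / 3) := by simp [st, h, hb]
      rw [h1]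
      have h2 : 3 * (x / 3) + 1 < 6 * q := by omega
      have h3 : (3 * (x / 3) + 1) / 6 = x / 6 := by omega
      simp only [st, h2, h3, hb, if_true]
      simp only [Bool.false_eq_true, if_false]
      omega
  · have h1 : st q r b x = 6 * q + 2 * min ((x - 6 * q) / 2) (r / 2 - 1) := by simp [st, h]
    rw [h1]
    have h2 : ¬ (6 * q + 2 * min ((x - 6 * q) / 2) (r / 2 - 1) + 1 < 6 * q) := by omega
    simp only [st, h2, if_false]
    omega

lemma st_succ_lt (q r : ℕ) (hr : 2 ≤ r) (b : ℕ → Bool) (x : ℕ) (hx : x < 6 * q + r) :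
    st q r b x + 1 < 6 * q + r := by
  unfold st
  split_ifs <;> omega

lemma st_mono (q r : ℕ) (b : ℕ → Bool) {x y : ℕ} (hxy : x ≤ y) : st q r b x ≤ st q r b y := by
  by_cases hy : y < 6 * q
  · have hx : x < 6 * q := by omega
    by_cases hd : x / 6 = y / 6
    · by_cases hb : b (y / 6)
      · simp only [st, hx, hy, hd, hb, if_true]
        omega
      · simp only [st, hx, hy, hd, hb, if_true]
        simp only [Bool.false_eq_true, if_false]
        omega
    · have h1 := st_le q r b x
      have h2 : 6 * (y / 6) ≤ st q r b y := by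
        by_cases hb : b (y / 6)
        · simp only [st, hy, hb, if_true]
          omega
        · simp only [st, hy, hb, if_true]
          simp only [Bool.false_eq_true, if_false]
          omega
      omega
  · by_cases hx : x < 6 * q
    · have h1 := st_le q r b x
      have h2 : st q r b y = 6 * q + 2 * min ((y - 6 * q) / 2) (r / 2 - 1) := by simp [st, hy]
      omega
    · have h1 : st q r b x = 6 * q + 2 * min ((x - 6 * q) / 2) (r / 2 - 1) := by simp [st, hx]
      have h2 : st q r b y = 6 * q + 2 * min ((y - 6 * q) / 2) (r / 2 - 1) := by simp [st, hy]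
      omega

lemma st_lt_iff (q r : ℕ) (b : ℕ → Bool) (x y : ℕ) :
    st q r b y < st q r b x ↔ y < st q r b x := by
  constructor
  · intro h
    by_contra hcon
    push Not at hcon
    have := st_mono q r b hcon
    rw [st_idem] at this
    omega
  · intro h
    have := st_le q r b y
    omega

/-- The members of the family. -/
def member (q r : ℕ) (b : ℕ → Bool) : FinPoset where
  n := 6 * q + r
  ord := weakOrder (fun x => st q r b x.val)

/-- position of an element -/
def pos {q r : ℕ} {b : ℕ → Bool} (x : (member q r b).Carrier) : ℕ :=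
  (show Fin (6 * q + r) from x).val

/-- element at a position -/
def mkE (q r : ℕ) (b : ℕ → Bool) (i : ℕ) (h : i < 6 * q + r) : (member q r b).Carrier :=
  (⟨i, h⟩ : Fin (6 * q + r))

lemma pos_mkE (q r : ℕ) (b : ℕ → Bool) (i : ℕ) (h : i < 6 * q + r) :
    pos (mkE q r b i h) = i := rfl

lemma pos_lt {q r : ℕ} {b : ℕ → Bool} (x : (member q r b).Carrier) : pos x < 6 * q + r :=
  Fin.isLt (show Fin (6 * q + r) from x)

lemma pos_inj {q r : ℕ} {b : ℕ → Bool} {x y : (member q r b).Carrier} (h : pos x = pos y) :
    x = y := Fin.ext h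

lemma mkE_pos {q r : ℕ} {b : ℕ → Bool} (x : (member q r b).Carrier) :
    mkE q r b (pos x) (pos_lt x) = x := rfl

lemma member_le (q r : ℕ) (b : ℕ → Bool) (x y : (member q r b).Carrier) :
    x ≤ y ↔ (x = y ∨ st q r b (pos x) < st q r b (pos y)) := Iff.rfl

lemma member_lt (q r : ℕ) (b : ℕ → Bool) (x y : (member q r b).Carrier) :
    x < y ↔ st q r b (pos x) < st q r b (pos y) := by
  rw [lt_iff_le_not_ge, member_le, member_le]
  constructor
  · rintro ⟨h | h, h'⟩
    · exact absurd (Or.inl h.symm) h'
    · exact h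
  · intro h
    refine ⟨Or.inr h, ?_⟩
    rintro (h' | h')
    · rw [h'] at h
      omega
    · omega

instance (P : FinPoset) : Fintype P.Carrier := inferInstanceAs (Fintype (Fin P.n))

lemma card_below (q r : ℕ) (b : ℕ → Bool) (x : (member q r b).Carrier) :
    Nat.card {y : (member q r b).Carrier // y < x} = st q r b (pos x) := by
  have hx : pos x < 6 * q + r := pos_lt x
  have hst := st_le q r b (pos x)
  have e : {y : (member q r b).Carrier // y < x} ≃ Fin (st q r b (pos x)) :=
    { toFun := fun y => ⟨pos y.1, by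
        have := (member_lt q r b y.1 x).mp y.2
        rwa [st_lt_iff] at this⟩
      invFun := fun i => ⟨mkE q r b i.val (by have := i.isLt; omega), by
        rw [member_lt, st_lt_iff, pos_mkE]
        exact i.isLt⟩
      left_inv := fun y => by
        apply Subtype.ext
        exact mkE_pos y.1
      right_inv := fun i => by
        apply Fin.ext
        rfl }
  rw [Nat.card_congr e]
  simp

lemma member_distinct (q r : ℕ) (hr : 2 ≤ r) (b b' : ℕ → Bool)
    (h : Nonempty ((member q r b).Carrier ≃o (member q r b').Carrier)) (g : ℕ) (hg : g < q)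
    (hb : b g = true) : b' g = true := by
  obtain ⟨e⟩ := h
  by_contra hb'
  have hxlt : 6 * g + 2 < 6 * q + r := by omega
  let x : (member q r b).Carrier := mkE q r b (6 * g + 2) hxlt
  have h1 := card_below q r b x
  have h2 := card_below q r b' (e x)
  have h3 : Nat.card {y : (member q r b).Carrier // y < x} =
      Nat.card {y : (member q r b').Carrier // y < e x} := by
    apply Nat.card_congr
    exact { toFun := fun y => ⟨e y.1, e.lt_iff_lt.mpr y.2⟩
            invFun := fun z => ⟨e.symm z.1, by
              have := z.2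
              rw [← e.lt_iff_lt, e.apply_symm_apply]
              exact this⟩
            left_inv := fun y => by simp
            right_inv := fun z => by simp }
  have h4 : st q r b (6 * g + 2) = 6 * g + 2 := by
    have h5 : 6 * g + 2 < 6 * q := by omega
    have h6 : (6 * g + 2) / 6 = g := by omega
    simp only [st, h5, h6, hb, if_true]
    omega
  have h1' : Nat.card {y : (member q r b).Carrier // y < x} = 6 * g + 2 := h1.trans h4
  have h7 : st q r b' (pos (e x)) = 6 * g + 2 := by
    rw [← h2, ← h3, h1']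
  have hz : pos (e x) < 6 * q + r := pos_lt (e x)
  have h8 := st_le q r b' (pos (e x))
  have h9 := le_st q r hr b' (pos (e x)) hz
  set z := pos (e x) with hzdef
  have h10 : z < 6 * q := by omega
  have h11 : z / 6 = g := by omega
  simp only [st, h10, h11, if_true] at h7
  rw [if_neg hb'] at h7
  omega

lemma member_card (q r : ℕ) (b : ℕ → Bool) : Fintype.card (member q r b).Carrier = 6 * q + r :=
  Fintype.card_fin _

lemma member_embed (q r : ℕ) (hr : 2 ≤ r) (b : ℕ → Bool) (k T : ℕ) (hT : 3 ≤ T)
    (hk : 2 ≤ k) (hD : 6 * q + r ≤ T * (k - 1)) :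
    Nonempty ((member q r b).Carrier ↪o (Fin T → Fin k)) := by
  refine embed_weak k T hk hT (fun x => st q r b (pos x)) (member_le q r b)
    (fun x => pos x) ?_ ?_ ?_
  · intro x y h
    exact pos_inj h
  · intro x
    have := pos_lt x
    omega
  · intro x y hxy
    have hx := pos_lt x
    have h1 := le_st q r hr b (pos x) hx
    have h2 := st_le q r b (pos y)
    omega

lemma member_del_embed (q r : ℕ) (hr : 2 ≤ r) (b : ℕ → Bool) (k T : ℕ) (hk : 2 ≤ k) (hT : 3 ≤ T)
    (hD : 6 * q + r ≤ T * (k - 1) + 1) (x0 : (member q r b).Carrier) :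
    Nonempty ({y : (member q r b).Carrier // y ≠ x0} ↪o (Fin T → Fin k)) := by
  classical
  refine embed_weak k T hk hT (fun x => st q r b (pos x.1)) ?_
    (fun x => if pos x.1 < pos x0 then pos x.1 else pos x.1 - 1) ?_ ?_ ?_
  · intro x y
    have := member_le q r b x.1 y.1
    rw [← Subtype.coe_le_coe, this, Subtype.ext_iff]
  · intro x y h
    apply Subtype.ext
    apply pos_inj
    have hx : pos x.1 ≠ pos x0 := fun h' => x.2 (pos_inj h')
    have hy : pos y.1 ≠ pos x0 := fun h' => y.2 (pos_inj h')
    simp only at h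
    split_ifs at h <;> omega
  · intro x
    have hx : pos x.1 ≠ pos x0 := fun h' => x.2 (pos_inj h')
    have hx1 := pos_lt x.1
    have hx0 := pos_lt x0
    split_ifs <;> omega
  · intro x y hxy
    have hx : pos x.1 ≠ pos x0 := fun h' => x.2 (pos_inj h')
    have hy : pos y.1 ≠ pos x0 := fun h' => y.2 (pos_inj h')
    have hx1 := pos_lt x.1
    have h1 := le_st q r hr b (pos x.1) hx1
    have h2 := st_le q r b (pos y.1)
    split_ifs <;> omega

lemma member_no_embed (q r : ℕ) (hr : 2 ≤ r) (b : ℕ → Bool) (k T : ℕ)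
    (hD : T * (k - 1) < 6 * q + r) :
    ¬ Nonempty ((member q r b).Carrier ↪o (Fin T → Fin k)) := by
  classical
  rintro ⟨f⟩
  have h := card_le_of_embed (α := (member q r b).Carrier) k T (fun x => st q r b (pos x))
    (member_le q r b) ?_ f
  · rw [member_card] at h
    omega
  · intro x
    have hx := pos_lt x
    have h1 := st_succ_lt q r hr b (pos x) hx
    constructor
    · have hsub : ({mkE q r b (st q r b (pos x)) (by omega),
          mkE q r b (st q r b (pos x) + 1) h1} : Finset (member q r b).Carrier) ⊆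
          Finset.univ.filter
            (fun y : (member q r b).Carrier => st q r b (pos y) = st q r b (pos x)) := by
        intro z hz
        simp only [Finset.mem_insert, Finset.mem_singleton] at hz
        simp only [Finset.mem_filter, Finset.mem_univ, true_and]
        rcases hz with rfl | rfl
        · rw [pos_mkE]
          exact st_idem q r b _
        · rw [pos_mkE]
          exact st_succ q r hr b _
      have h2 := Finset.card_le_card hsub
      rw [Finset.card_pair] at h2
      · exact h2
      · intro h3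
        have := congrArg pos h3
        rw [pos_mkE, pos_mkE] at this
        omega
    · have hinj := Finset.card_le_card_of_injOn
        (s := Finset.univ.filter
            (fun y : (member q r b).Carrier => st q r b (pos y) = st q r b (pos x)))
        (t := Finset.Icc (st q r b (pos x)) (st q r b (pos x) + 2))
        (fun y => pos y) ?_ ?_
      · simp only [Nat.card_Icc] at hinj
        omega
      · intro y hy
        simp only [Finset.coe_filter, Finset.mem_univ, true_and, Set.mem_ofPred_eq] at hy
        have hy1 := pos_lt y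
        have h2 := le_st q r hr b (pos y) hy1
        have h3 := st_le q r b (pos y)
        simp only [Finset.coe_Icc, Set.mem_Icc]
        omega
      · intro y _ z _ h
        exact pos_inj h

lemma member_kDim (q r : ℕ) (hr : 2 ≤ r) (b : ℕ → Bool) (k t : ℕ) (hk : 2 ≤ k) (ht : 4 ≤ t)
    (hD : 6 * q + r = (t - 1) * (k - 1) + 1) : kDim k (member q r b).Carrier = t := by
  have hlt : (t - 1) * (k - 1) + 1 ≤ t * (k - 1) := by
    obtain ⟨s, rfl⟩ : ∃ s, t = s + 1 := ⟨t - 1, by omega⟩
    simp only [Nat.add_sub_cancel]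
    rw [Nat.add_mul]
    omega
  have hmem : t ∈ {t : ℕ | Nonempty ((member q r b).Carrier ↪o (Fin t → Fin k))} :=
    member_embed q r hr b k t (by omega) hk (by omega)
  apply le_antisymm
  · exact Nat.sInf_le hmem
  · apply le_csInf ⟨t, hmem⟩
    intro T hT
    by_contra hcon
    push Not at hcon
    refine member_no_embed q r hr b k T ?_ hT
    have : T * (k - 1) ≤ (t - 1) * (k - 1) := Nat.mul_le_mul_right _ (by omega)
    omega

lemma member_irr (q r : ℕ) (hr : 2 ≤ r) (b : ℕ → Bool) (k t : ℕ) (hk : 2 ≤ k) (ht : 4 ≤ t)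
    (hD : 6 * q + r = (t - 1) * (k - 1) + 1) : KIrreducible k (member q r b).Carrier := by
  intro x0
  rw [member_kDim q r hr b k t hk ht hD]
  have : kDim k {y : (member q r b).Carrier // y ≠ x0} ≤ t - 1 :=
    Nat.sInf_le (member_del_embed q r hr b k (t - 1) hk (by omega) (by omega) x0)
  omega

/-! ### finiteness -/

lemma irrClasses_finite (k t : ℕ) (ht : 1 ≤ t) : (irrClasses k t).Finite := by
  classical
  have hfin : ∀ n : ℕ, Finite (PartialOrder (Fin n)) := by
    intro n
    have hinj : Function.Injective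
        (fun (p : PartialOrder (Fin n)) => (fun x y => p.le x y : Fin n → Fin n → Prop)) := by
      intro p p' h
      apply PartialOrder.ext
      intro x y
      exact iff_of_eq (congrFun (congrFun h x) y)
    exact Finite.of_injective _ hinj
  let F : (Σ n : Fin (k ^ t + 1), PartialOrder (Fin n.val)) → Quotient isoSetoid :=
    fun p => Quotient.mk isoSetoid ⟨p.1.val, p.2⟩
  have hfin' : Finite (Σ n : Fin (k ^ t + 1), PartialOrder (Fin n.val)) := by
    have := fun n : Fin (k ^ t + 1) => hfin n.val
    infer_instance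
  apply (Set.finite_range F).subset
  rintro c ⟨P, rfl, _, hdim⟩
  have hne : {t : ℕ | Nonempty (P.Carrier ↪o (Fin t → Fin k))}.Nonempty := by
    apply Nat.nonempty_of_pos_sInf
    have : kDim k P.Carrier = sInf {t : ℕ | Nonempty (P.Carrier ↪o (Fin t → Fin k))} := rfl
    omega
  have hmem : t ∈ {t : ℕ | Nonempty (P.Carrier ↪o (Fin t → Fin k))} := by
    rw [← hdim]
    exact Nat.sInf_mem hne
  obtain ⟨f⟩ := hmem
  have hcard := Fintype.card_le_of_injective f f.injective
  have h1 : Fintype.card P.Carrier = P.n := Fintype.card_fin P.n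
  have h2 : Fintype.card (Fin t → Fin k) = k ^ t := by simp
  rw [h1, h2] at hcard
  exact ⟨⟨⟨P.n, by omega⟩, P.ord⟩, rfl⟩

lemma two_pow_le (k t : ℕ) (hk : 2 ≤ k) (ht : 4 ≤ t) :
    2 ^ (((t - 1) * (k - 1) - 1) / 6) ≤ numIrr k t := by
  classical
  set q := ((t - 1) * (k - 1) - 1) / 6 with hq
  have hpos : 3 ≤ (t - 1) * (k - 1) := by
    have := Nat.mul_le_mul (show 3 ≤ t - 1 by omega) (show 1 ≤ k - 1 by omega)
    omega
  set r := (t - 1) * (k - 1) + 1 - 6 * q with hr
  have hr2 : 2 ≤ r := by omega
  have hD : 6 * q + r = (t - 1) * (k - 1) + 1 := by omega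
  let ext : (Fin q → Bool) → (ℕ → Bool) := fun b g => if h : g < q then b ⟨g, h⟩ else false
  let G : (Fin q → Bool) → Quotient isoSetoid :=
    fun b => Quotient.mk isoSetoid (member q r (ext b))
  have hG : Function.Injective G := by
    intro b b' h
    have h1 : Nonempty ((member q r (ext b)).Carrier ≃o (member q r (ext b')).Carrier) :=
      Quotient.exact h
    have h2 : Nonempty ((member q r (ext b')).Carrier ≃o (member q r (ext b)).Carrier) :=
      Quotient.exact h.symm
    funext g
    have h3 := member_distinct q r hr2 (ext b) (ext b') h1 g.val g.isLt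
    have h4 := member_distinct q r hr2 (ext b') (ext b) h2 g.val g.isLt
    simp only [ext, g.isLt, dif_pos] at h3 h4
    rcases hbg : b g with _ | _ <;> rcases hbg' : b' g with _ | _
    · rfl
    · exact absurd (h4 hbg') (by simp [hbg])
    · exact absurd (h3 hbg) (by simp [hbg'])
    · rfl
  have hsub : Set.range G ⊆ irrClasses k t := by
    rintro c ⟨b, rfl⟩
    exact ⟨member q r (ext b), rfl, member_irr q r hr2 _ k t hk ht hD,
      member_kDim q r hr2 _ k t hk ht hD⟩
  have h5 : (Set.range G).ncard = 2 ^ q := by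
    rw [← Set.image_univ, Set.ncard_image_of_injective _ hG, Set.ncard_univ]
    simp
  unfold numIrr
  rw [← h5]
  exact Set.ncard_le_ncard hsub (irrClasses_finite k t (by omega))

/-- Exponentials beat polynomials, in the form needed. -/
lemma eventually_poly_lt (C c : ℕ) : ∀ᶠ t : ℕ in atTop, C * t ^ c < 2 ^ ((t - 2) / 6) := by
  have h1 : ∀ᶠ n : ℕ in atTop, C * 13 ^ c * n ^ c * 2 < 2 ^ n := by
    have h := isLittleO_pow_const_const_pow_of_one_lt (R := ℝ) c (one_lt_two)
    have h2 := h.def (c := 1 / (4 * ((C : ℝ) * 13 ^ c + 1))) (by positivity)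
    filter_upwards [h2, eventually_ge_atTop 1] with n hn hn1
    have hnn : ‖((n : ℝ)) ^ c‖ = (n : ℝ) ^ c := by
      rw [Real.norm_of_nonneg]
      positivity
    have hn2 : ‖(2 : ℝ) ^ n‖ = (2 : ℝ) ^ n := by
      rw [Real.norm_of_nonneg]
      positivity
    rw [hnn, hn2] at hn
    have hpos : (0 : ℝ) < (C : ℝ) * 13 ^ c + 1 := by positivity
    have h3 : ((C : ℝ) * 13 ^ c + 1) * (n : ℝ) ^ c * 4 ≤ 2 ^ n := by
      have := mul_le_mul_of_nonneg_left hn (show (0 : ℝ) ≤ 4 * ((C : ℝ) * 13 ^ c + 1) by positivity)
      calc ((C : ℝ) * 13 ^ c + 1) * (n : ℝ) ^ c * 4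
          = 4 * ((C : ℝ) * 13 ^ c + 1) * (n : ℝ) ^ c := by ring
        _ ≤ 4 * ((C : ℝ) * 13 ^ c + 1) * (1 / (4 * ((C : ℝ) * 13 ^ c + 1)) * 2 ^ n) := this
        _ = 2 ^ n := by field_simp
    have h4 : ((C * 13 ^ c * n ^ c * 2 : ℕ) : ℝ) < ((2 ^ n : ℕ) : ℝ) := by
      push_cast
      have hnpos : (0 : ℝ) < (n : ℝ) ^ c := by
        have : (0 : ℝ) < n := by exact_mod_cast hn1
        positivity
      have hA : (0 : ℝ) ≤ (C : ℝ) * 13 ^ c := by positivity
      nlinarith
    exact_mod_cast h4
  have htend : Tendsto (fun t : ℕ => (t - 2) / 6 + 1) atTop atTop := by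
    rw [tendsto_atTop]
    intro b
    filter_upwards [eventually_ge_atTop (6 * b + 2)] with t ht
    omega
  filter_upwards [htend.eventually h1, eventually_ge_atTop 2] with t ht ht2
  have hle : t ≤ 13 * ((t - 2) / 6 + 1) := by omega
  have h5 : C * t ^ c ≤ C * 13 ^ c * ((t - 2) / 6 + 1) ^ c := by
    calc C * t ^ c ≤ C * (13 * ((t - 2) / 6 + 1)) ^ c :=
          Nat.mul_le_mul_left _ (Nat.pow_le_pow_left hle c)
      _ = C * 13 ^ c * ((t - 2) / 6 + 1) ^ c := by rw [mul_pow]; ring
  have h6 : (2 : ℕ) ^ ((t - 2) / 6 + 1) = 2 * 2 ^ ((t - 2) / 6) := by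
    rw [pow_succ]; ring
  rw [h6] at ht
  omega

/-- **Main result.** For every `k ≥ 2`: the number `N_k(t)` of isomorphism classes of
`k`-irreducible posets of `k`-dimension `t` is at least `2 ^ ⌊((t-1)(k-1)-1)/6⌋` for all `t ≥ 4`
(in particular the set of classes is finite and nonempty, as `ncard` of an infinite set is `0`),
and therefore `N_k(t)` eventually exceeds every polynomial in `t`. -/
theorem result (k : ℕ) (hk : 2 ≤ k) :
    (∀ t : ℕ, 4 ≤ t → 2 ^ (((t - 1) * (k - 1) - 1) / 6) ≤ numIrr k t) ∧
    (∀ C c : ℕ, ∀ᶠ t : ℕ in atTop, C * t ^ c < numIrr k t) := by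
  refine ⟨fun t ht => two_pow_le k t hk ht, ?_⟩
  intro C c
  filter_upwards [eventually_poly_lt C c, eventually_ge_atTop 4] with t h1 h2
  refine lt_of_lt_of_le h1 (le_trans ?_ (two_pow_le k t hk h2))
  apply Nat.pow_le_pow_right (by norm_num)
  have : (t - 1) * 1 ≤ (t - 1) * (k - 1) := Nat.mul_le_mul_left _ (by omega)
  omega

end Pool.Agent.Results.MP_f639ae_co.ExpGrowth
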